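import Pool.Agent.H10.T2.Targets4

/-!
# CX: characters above an invariant character, cyclic factor group
-/

open scoped Classical ComplexConjugate

namespace Pool.Agent.H33.T2

open AMc AMe AMt Pool.Agent.H77.EA.All Pool.Agent.H77.EA

/-- CX -/
theorem cx (TG : T_TG) (GA : AMt.T_GA) (SC : T_SC) : T_CX := by
  intro Γ _ _ K G hKG g hg hgen θ hθ hgθ χ hχ hov k hk
  -- `θ` is invariant
  have hinv : ∀ u ∈ G, cj u θ = θ := by
    intro u hu
    have h1 : ∀ c : ℕ, g ^ c ∈ stab G θ := fun c =>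
      (stab G θ).pow_mem (show g ∈ stab G θ from ⟨hg, hgθ⟩) c
    obtain ⟨c, k', hk', rfl⟩ := hgen u hu
    have h2 : k' ∈ stab G θ := ⟨hKG.le hk', by
      funext x
      exact (fS1 Γ K θ hθ).2.1 k' hk' x⟩
    exact ((stab G θ).mul_mem (h1 c) h2).2
  obtain ⟨H, _, _, p, i, τ, ht, _⟩ := TG Γ K G hKG θ hθ hinv
  obtain ⟨g1, _, _⟩ := GA Γ K G θ H p i τ ht G hKG.le le_rfl
  obtain ⟨η, hη, hηi, hηχ, _, _⟩ := g1 χ hχ hov
  have hpU : ∀ a : H, a ∈ G.comap p := by
    intro a
    rw [Subgroup.mem_comap, ← ht.rng]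
    exact ⟨a, rfl⟩
  -- the commutators lie in `i(K)`
  have hnor : (i.range).Normal := by
    refine ⟨?_⟩
    rintro _ ⟨k', rfl⟩ a
    obtain ⟨k'', h2⟩ := ht.cjk a k'
    exact ⟨k'', h2⟩
  obtain ⟨a0, ha0⟩ : ∃ a0 : H, p a0 = g := by
    have : g ∈ p.range := by rw [ht.rng]; exact hg
    exact this
  have hmk : ∀ h : H, ∃ (z : H) (c : ℕ), (∀ a, z * a = a * z) ∧
      (QuotientGroup.mk h : H ⧸ i.range) = QuotientGroup.mk z * (QuotientGroup.mk a0) ^ c := by
    intro h
    obtain ⟨c, k', hk', h1⟩ := hgen (p h) (hpU h)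
    have h2 : p (h * (a0 ^ c * i ⟨k', hk'⟩)⁻¹) = 1 := by
      rw [map_mul, map_inv, map_mul, map_pow, ha0, ht.pi, ← h1, mul_inv_cancel]
    refine ⟨h * (a0 ^ c * i ⟨k', hk'⟩)⁻¹, c, ht.kerp _ h2, ?_⟩
    rw [← QuotientGroup.mk_pow, ← QuotientGroup.mk_mul, eq_comm, QuotientGroup.eq]
    refine ⟨⟨k', hk'⟩, ?_⟩
    group
  have hcomm : ∀ h x : H, ∃ k' : K, h * x = x * h * i k' := by
    intro h x
    obtain ⟨z, c, hz, e1⟩ := hmk h
    obtain ⟨z', c', hz', e2⟩ := hmk x
    have h1 : (QuotientGroup.mk (x * h) : H ⧸ i.range) = QuotientGroup.mk (h * x) := by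
      have q1 : (QuotientGroup.mk z : H ⧸ i.range) * QuotientGroup.mk a0 =
          QuotientGroup.mk a0 * QuotientGroup.mk z := by
        rw [← QuotientGroup.mk_mul, hz, QuotientGroup.mk_mul]
      have q2 : (QuotientGroup.mk z' : H ⧸ i.range) * QuotientGroup.mk a0 =
          QuotientGroup.mk a0 * QuotientGroup.mk z' := by
        rw [← QuotientGroup.mk_mul, hz', QuotientGroup.mk_mul]
      have q3 : (QuotientGroup.mk z : H ⧸ i.range) * QuotientGroup.mk z' =
          QuotientGroup.mk z' * QuotientGroup.mk z := by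
        rw [← QuotientGroup.mk_mul, hz, QuotientGroup.mk_mul]
      have c1 : Commute (QuotientGroup.mk z : H ⧸ i.range) (QuotientGroup.mk a0) := q1
      have c2 : Commute (QuotientGroup.mk z' : H ⧸ i.range) (QuotientGroup.mk a0) := q2
      have c3 : Commute (QuotientGroup.mk z : H ⧸ i.range) (QuotientGroup.mk z') := q3
      rw [QuotientGroup.mk_mul, QuotientGroup.mk_mul, e1, e2]
      have c4 : Commute (QuotientGroup.mk z' * (QuotientGroup.mk a0 : H ⧸ i.range) ^ c')
          (QuotientGroup.mk z * (QuotientGroup.mk a0 : H ⧸ i.range) ^ c) := by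
        refine Commute.mul_left (Commute.mul_right c3.symm (c2.pow_right c))
          (Commute.mul_right (c1.pow_right c').symm ((Commute.refl _).pow_pow c' c))
      exact c4
    rw [QuotientGroup.eq] at h1
    obtain ⟨k', hk'⟩ := h1
    refine ⟨k', ?_⟩
    rw [hk']
    group
  have hcj : ∀ h x y : H, η (h * x * h⁻¹ * y) = η (x * y) := by
    intro h x y
    obtain ⟨k1, h1⟩ := hcomm h x
    obtain ⟨k2, h2⟩ := ht.cjk h k1
    obtain ⟨k3, h3⟩ := ht.cjk y⁻¹ k2
    have h4 : h * x * h⁻¹ * y = x * y * i k3 := by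
      rw [h3, h2, h1]
      group
    rw [h4, hηi]
  -- the values of `η`
  obtain ⟨_, _, ⟨d, hd0, hd⟩, hconj, _, hηI⟩ := fS1 H (G.comap p) η hη
  have hd' : (d : ℂ) ≠ 0 := by exact_mod_cast hd0.ne'
  have hW : (Nat.card (G.comap p) : ℂ) ≠ 0 := by
    have : 0 < Nat.card (G.comap p) := Nat.card_pos
    exact_mod_cast this.ne'
  have hmul : ∀ x y : H, η (x * y) * η 1 = η x * η y := by
    intro x y
    have h1 := (SC (G.comap p) _ hηI _ hηI ⟨x, hpU x⟩ ⟨y, hpU y⟩).2
    have h2 : ∀ a : G.comap p, η ((a : H) * x * (a : H)⁻¹ * y) = η (x * y) := fun a => hcj a x y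
    have h3 : ∑ a : G.comap p, η ((a : H) * x * (a : H)⁻¹ * y) =
        (Nat.card (G.comap p) : ℂ) * η (x * y) := by
      rw [Finset.sum_congr rfl fun a _ => h2 a, Finset.sum_const, Finset.card_univ,
        nsmul_eq_mul, Nat.card_eq_fintype_card]
    have h4 : (Nat.card (G.comap p) : ℂ) * η (x * y) =
        (Nat.card (G.comap p) : ℂ) / η 1 * η x * η y := by
      rw [← h3]
      exact h1
    have h5 : η 1 ≠ 0 := by rw [hd]; exact hd'
    field_simp at h4
    linear_combination h4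
  have hone : η 1 = 1 := by
    have h1 := fS2 H (G.comap p) η η hη hη
    rw [if_pos rfl] at h1
    have h2 : ∀ x : H, η x * conj (η x) = (d : ℂ) * d := by
      intro x
      rw [hconj, ← hmul, mul_inv_cancel, hd]
    rw [Finset.sum_congr rfl fun x _ => h2 x, Finset.sum_const, Finset.card_univ,
      nsmul_eq_mul] at h1
    have h3 : Nat.card (G.comap p) = Fintype.card H := by
      have : G.comap p = ⊤ := by
        rw [eq_top_iff]
        exact fun x _ => hpU x
      rw [this, Nat.card_eq_fintype_card, Nat.card_eq_fintype_card.symm]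
      simp
    rw [h3] at h1
    have h4 : Fintype.card H * (d * d) = Fintype.card H := by exact_mod_cast h1
    have h5 : d * d = 1 := by
      have h6 : 0 < Fintype.card H := Fintype.card_pos
      exact Nat.eq_of_mul_eq_mul_left h6 (by rw [h4, mul_one])
    have h6 : d = 1 := Nat.eq_one_of_mul_eq_one_left h5
    rw [hd, h6, Nat.cast_one]
  have h1 := (hηχ (i ⟨k, hk⟩) (hpU _)).1
  rw [ht.pi, ht.res] at h1
  have h2 : η (i ⟨k, hk⟩) = 1 := by
    have := hηi 1 ⟨k, hk⟩
    rw [one_mul, hone] at this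
    exact this
  rw [h2, mul_one] at h1
  exact h1

end Pool.Agent.H33.T2
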