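import Pool.Agent.H10.T2.Targets1

/-!
# DD: the degree of a character above divides
-/

open scoped Classical ComplexConjugate

namespace Pool.Agent.H33.T2

open AMc AMe AMt Pool.Agent.H77.EA.All

/-- representatives of the cosets `v Y`, `v ∈ U` -/
theorem exists_Tv {Γ : Type} [Group Γ] [Fintype Γ] (Y U : Subgroup Γ) (h : Y ≤ U) :
    ∃ R : Finset Γ, Tv R Y U := by
  refine ⟨Finset.univ.filter (fun r => r ∈ U ∧ r = (QuotientGroup.mk r : Γ ⧸ Y).out), ?_, ?_⟩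
  · intro r hr
    exact (Finset.mem_filter.1 hr).2.1
  · intro u hu
    have h1 : (QuotientGroup.mk (QuotientGroup.mk u : Γ ⧸ Y).out : Γ ⧸ Y) = QuotientGroup.mk u :=
      Quotient.out_eq' _
    have h2 : ((QuotientGroup.mk u : Γ ⧸ Y).out)⁻¹ * u ∈ Y := QuotientGroup.eq.1 h1
    refine ⟨(QuotientGroup.mk u : Γ ⧸ Y).out, ⟨?_, h2⟩, ?_⟩
    · refine Finset.mem_filter.2 ⟨Finset.mem_univ _, ?_, ?_⟩
      · have h3 := U.mul_mem hu (U.inv_mem (h h2))
        simpa using h3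
      · rw [h1]
    · rintro r ⟨hr, hr2⟩
      have h3 : (QuotientGroup.mk r : Γ ⧸ Y) = QuotientGroup.mk u := QuotientGroup.eq.2 hr2
      rw [(Finset.mem_filter.1 hr).2.2, h3]

/-- if `m (n / m) ^ k` is an algebraic integer for all `k` then `m` divides `n` -/
theorem dvd_of_pow_integral (m n : ℕ) (hm : 0 < m)
    (h : ∀ k : ℕ, IsIntegral ℤ (((n : ℂ) / m) ^ k * m)) : m ∣ n := by
  set r : ℚ := (n : ℚ) / m with hr
  have h1 : ∀ k : ℕ, ∃ z : ℤ, (z : ℚ) = r ^ k * m := by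
    intro k
    have h2 : IsIntegral ℤ (algebraMap ℚ ℂ (r ^ k * m)) := by
      have h3 : algebraMap ℚ ℂ (r ^ k * m) = ((n : ℂ) / m) ^ k * m := by
        rw [hr]
        simp
      rw [h3]
      exact h k
    rw [isIntegral_algebraMap_iff (algebraMap ℚ ℂ).injective] at h2
    obtain ⟨z, hz⟩ := IsIntegrallyClosed.isIntegral_iff.1 h2
    exact ⟨z, by simpa using hz⟩
  have h2 : r.den ^ m ∣ m := by
    obtain ⟨z, hz⟩ := h1 m
    have h3 : (z : ℚ) * (r.den : ℚ) ^ m = (r.num : ℚ) ^ m * m := by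
      have h4 : r * r.den = r.num := Rat.mul_den_eq_num r
      rw [hz, ← h4, mul_pow]
      ring
    have h4 : z * (r.den : ℤ) ^ m = r.num ^ m * m := by exact_mod_cast h3
    have h5 : ((r.den : ℤ) ^ m) ∣ r.num ^ m * m := ⟨z, by rw [← h4]; ring⟩
    have h6 : IsCoprime ((r.den : ℤ) ^ m) (r.num ^ m) := by
      refine IsCoprime.pow ?_
      rw [Int.isCoprime_iff_gcd_eq_one]
      have := r.reduced
      rw [Nat.Coprime, Nat.gcd_comm] at this
      simpa [Int.gcd] using this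
    have h7 := h6.dvd_of_dvd_mul_left h5
    exact_mod_cast h7
  have h3 : r.den = 1 := by
    by_contra h4
    have h5 : 2 ≤ r.den := by
      have := r.den_pos
      omega
    have h6 : r.den ^ m ≤ m := Nat.le_of_dvd hm h2
    have h7 : m < 2 ^ m := Nat.lt_two_pow_self
    have h8 : 2 ^ m ≤ r.den ^ m := Nat.pow_le_pow_left h5 m
    omega
  have h4 : (r.num : ℚ) = r := by
    have := Rat.mul_den_eq_num r
    rw [h3] at this
    simpa using this.symm
  have h5 : (n : ℚ) = m * r.num := by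
    rw [h4, hr]
    field_simp
  have h6 : (n : ℤ) = m * r.num := by exact_mod_cast h5
  exact Int.natCast_dvd_natCast.1 ⟨r.num, h6⟩

/-- the invariant case -/
theorem dd_inv (SV : T_SV) (GA : AMt.T_GA) (TG : T_TG) (Γ : Type) [Group Γ] [Fintype Γ]
    (K U : Subgroup Γ) (hKU : NIn K U) (χ : Γ → ℂ) (hχ : χ ∈ IrrS U) (θ : Γ → ℂ)
    (hθ : θ ∈ IrrS K) (hinv : ∀ u ∈ U, cj u θ = θ) (hov : Over χ θ) :
    ∃ m : ℕ, 0 < m ∧ χ 1 = m * θ 1 ∧ m ∣ K.relIndex U := by
  obtain ⟨H, _, _, p, i, τ, ht, _⟩ := TG Γ K U hKU θ hθ hinv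
  obtain ⟨g1, _, _⟩ := GA Γ K U θ H p i τ ht U hKU.le le_rfl
  obtain ⟨η, hη, hηi, _, hη1, hηz⟩ := g1 χ hχ hov
  obtain ⟨_, _, ⟨m, hm0, hm⟩, _⟩ := fS1 H (U.comap p) η hη
  have hint := (fS5 H (U.comap p) η hη).1
  obtain ⟨R, hR⟩ := exists_Tv K U hKU.le
  have hpU : ∀ a : H, a ∈ U.comap p := by
    intro a
    rw [Subgroup.mem_comap, ← ht.rng]
    exact ⟨a, rfl⟩
  have hsur : ∀ v : Γ, ∃ a : H, v ∈ U → p a = v := by
    intro v
    by_cases hv : v ∈ U
    · rw [← ht.rng] at hv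
      obtain ⟨a, ha⟩ := hv
      exact ⟨a, fun _ => ha⟩
    · exact ⟨1, fun h => absurd h hv⟩
  choose a ha using hsur
  have hsv : ∀ y : H, ((K.relIndex U : ℂ) / m) * η y = ∑ v ∈ R, η ((a v)⁻¹) * η (a v * y) := by
    intro y
    have h1 := (SV Γ K U θ H p i τ ht U hKU.le le_rfl R hR a (fun v hv => ha v (hR.1 v hv)) η hη
      η hη hηi hηi hηz hηz 1 (hpU 1) y (hpU y)).1
    rw [if_pos rfl] at h1
    simp only [one_mul] at h1
    rw [h1, hm]
  have hall : ∀ k : ℕ, ∀ y : H, IsIntegral ℤ (((K.relIndex U : ℂ) / m) ^ k * η y) := by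
    intro k
    induction k with
    | zero => intro y; simpa using hint y
    | succ k ih =>
      intro y
      have h1 : ((K.relIndex U : ℂ) / m) ^ (k + 1) * η y =
          ∑ v ∈ R, η ((a v)⁻¹) * (((K.relIndex U : ℂ) / m) ^ k * η (a v * y)) := by
        rw [pow_succ, mul_assoc, hsv, Finset.mul_sum]
        refine Finset.sum_congr rfl fun v _ => ?_
        ring
      rw [h1]
      exact IsIntegral.sum _ fun v _ => (hint _).mul (ih _)
  refine ⟨m, hm0, by rw [hη1, hm]; ring, dvd_of_pow_integral m _ hm0 fun k => ?_⟩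
  have := hall k 1
  rwa [hm] at this

/-- DD -/
theorem dd (SV : T_SV) (GA : AMt.T_GA) (CC : T_CC) (TG : T_TG) : T_DD := by
  intro Γ _ _ K U hKU χ hχ θ hθ hov
  obtain ⟨c1, _⟩ := CC Γ K U hKU θ hθ
  obtain ⟨ψ, hψ, hov1, _, _, hdeg, _, _⟩ := c1 χ hχ hov
  have hle : stab U θ ≤ U := fun x hx => hx.1
  have hKT : K ≤ stab U θ := by
    intro k hk
    refine ⟨hKU.le hk, ?_⟩
    funext g
    exact (fS1 Γ K θ hθ).2.1 k hk g
  have hnin : NIn K (stab U θ) := ⟨hKT, fun u hu g hg => hKU.nor u (hle hu) g hg⟩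
  obtain ⟨m, hm0, hm, hmd⟩ := dd_inv SV GA TG Γ K (stab U θ) hnin ψ hψ θ hθ (fun u hu => hu.2) hov1
  have hpos : 0 < (stab U θ).relIndex U := by
    refine Nat.pos_of_ne_zero ?_
    rw [Subgroup.relIndex]
    exact Subgroup.index_ne_zero_of_finite
  refine ⟨(stab U θ).relIndex U * m, Nat.mul_pos hpos hm0, ?_, ?_⟩
  · rw [hdeg, hm]
    push_cast
    ring
  · rw [← Subgroup.relIndex_mul_relIndex K (stab U θ) U hKT hle, mul_comm]
    exact Nat.mul_dvd_mul_right hmd _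

end Pool.Agent.H33.T2
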