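import Pool.Agent.H10.T2.Targets5

/-!
# QE: correspondence of characters
-/

open scoped Classical ComplexConjugate

set_option linter.unusedSectionVars false

namespace Pool.Agent.H33.T2

open AMc AMe AMt Pool.Agent.H77.EA.All Pool.Agent.H77.EA

section

variable {Γ : Type} [Group Γ] [Fintype Γ] {K U : Subgroup Γ} {θ : Γ → ℂ}
  {H : Type} [Group H] [Fintype H] {p : H →* Γ} {i : K →* H} {τ : H → ℂ}
  {Q : Type} [Group Q] [Fintype Q] {q : H →* Q} {Zs : Subgroup Q} {νs : Q → ℂ}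

theorem qt_tau_one (h : Qt K U θ p i τ q Zs νs) : τ 1 = θ 1 := by
  have h1 := h.trp.res 1
  rw [map_one] at h1
  exact h1

theorem qt_theta_ne (h : Qt K U θ p i τ q Zs νs) : θ 1 ≠ 0 := by
  obtain ⟨_, _, ⟨d, hd0, hd⟩, _⟩ := fS1 Γ K θ h.trp.irr
  rw [hd]
  exact_mod_cast hd0.ne'

theorem qt_tau_ne (h : Qt K U θ p i τ q Zs νs) {w : H} (hw : p w = 1) : τ w ≠ 0 := by
  have h1 := h.nus w hw
  intro h2
  rw [h2, mul_zero, qt_tau_one h] at h1
  exact qt_theta_ne h h1.symm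

theorem qt_mem (h : Qt K U θ p i τ q Zs νs) {V : Subgroup Γ} (hKV : K ≤ V) (a : H) :
    q a ∈ (V.comap p).map q ↔ a ∈ V.comap p := by
  constructor
  · rintro ⟨w, hw, hwa⟩
    have h1 : q (w⁻¹ * a) = 1 := by rw [map_mul, map_inv, hwa, inv_mul_cancel]
    obtain ⟨k, hk⟩ := (h.ker _).1 h1
    have h2 : w⁻¹ * a ∈ V.comap p := by
      rw [← hk, Subgroup.mem_comap, h.trp.pi]
      exact hKV k.2
    have h3 := (V.comap p).mul_mem hw h2
    rwa [mul_inv_cancel_left] at h3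
  · intro ha
    exact ⟨a, ha, rfl⟩

theorem qt_ik (h : Qt K U θ p i τ q Zs νs) (k : K) : q (i k) = 1 := (h.ker _).2 ⟨k, rfl⟩

/-- inflation -/
theorem qt_inf (h : Qt K U θ p i τ q Zs νs) {V : Subgroup Γ} (hKV : K ≤ V) {η : Q → ℂ}
    (hη : η ∈ IrrS ((V.comap p).map q)) : (fun a => η (q a)) ∈ IrrS (V.comap p) := by
  obtain ⟨hs, _, _, _, _, hI⟩ := fS1 Q _ η hη
  have h1 := ((fQI (V.comap p) ((V.comap p).map q) (q.subgroupMap (V.comap p))
    (q.subgroupMap_surjective (V.comap p))).1 (fun n => η n)).1 hI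
  refine ⟨_, h1, ?_⟩
  funext a
  unfold ext0
  by_cases ha : a ∈ V.comap p
  · rw [dif_pos ha]
    rfl
  · rw [dif_neg ha]
    exact (hs _ (fun h2 => ha ((qt_mem h hKV a).1 h2))).symm

/-- deflation -/
theorem qt_def (h : Qt K U θ p i τ q Zs νs) {V : Subgroup Γ} (hKV : K ≤ V) {η₀ : H → ℂ}
    (hη : η₀ ∈ IrrS (V.comap p)) (hi : ∀ a k, η₀ (a * i k) = η₀ a) :
    ∃ η ∈ IrrS ((V.comap p).map q), ∀ a, η (q a) = η₀ a := by
  obtain ⟨hs, _, _, _, _, hI⟩ := fS1 H _ η₀ hη
  obtain ⟨b, hb, hb2⟩ := (fQI (V.comap p) ((V.comap p).map q) (q.subgroupMap (V.comap p))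
    (q.subgroupMap_surjective (V.comap p))).2 (fun n => η₀ n) hI (by
      intro z hz
      have h1 : q (z : H) = 1 := congrArg Subtype.val hz
      obtain ⟨k, hk⟩ := (h.ker _).1 h1
      have h2 := hi 1 k
      rw [one_mul, hk] at h2
      exact h2)
  refine ⟨ext0 _ b, ⟨b, hb, rfl⟩, fun a => ?_⟩
  unfold ext0
  by_cases ha : a ∈ V.comap p
  · rw [dif_pos ((qt_mem h hKV a).2 ha)]
    have h3 := congrFun hb2 ⟨a, ha⟩
    exact h3.symm
  · rw [dif_neg (fun h2 => ha ((qt_mem h hKV a).1 h2)), hs a ha]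

end

/-- QE -/
theorem qe (GA : AMt.T_GA) : T_QE := by
  intro Γ _ _ K U θ H _ _ p i τ Q _ _ q Zs νs h V hKV hVU
  have hτ1 := qt_tau_one h
  have hθ1 := qt_theta_ne h
  obtain ⟨ga1, ga2, ga3⟩ := GA Γ K U θ H p i τ h.trp V hKV hVU
  have hZ : ∀ z ∈ Zs, ∃ w : H, p w = 1 ∧ q w = z := by
    intro z hz
    rw [h.zs] at hz
    obtain ⟨w, hw, hwz⟩ := hz
    exact ⟨w, hw, hwz⟩
  refine ⟨⟨?_, ?_, ?_, ?_⟩, ?_, ?_, ?_⟩
  · intro z hz
    obtain ⟨w, hw, rfl⟩ := hZ z hz
    refine ⟨w, ?_, rfl⟩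
    show p w ∈ V
    rw [hw]
    exact V.one_mem
  · intro z hz g _
    obtain ⟨w, hw, rfl⟩ := hZ z hz
    obtain ⟨a, rfl⟩ := h.sur g
    rw [← map_mul, h.trp.kerp w hw a, map_mul]
  · have h1 := h.nus 1 (map_one p)
    rw [map_one] at h1
    have h2 : τ 1 ≠ 0 := by rw [hτ1]; exact hθ1
    exact mul_right_cancel₀ h2 (by rw [h1, one_mul])
  · intro z hz w hw
    obtain ⟨a, ha, rfl⟩ := hZ z hz
    obtain ⟨b, hb, rfl⟩ := hZ w hw
    have hab : p (a * b) = 1 := by rw [map_mul, ha, hb, one_mul]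
    have h1 := h.nus (a * b) hab
    have h2 := h.nus a ha
    have h3 := h.nus b hb
    have hc : a ∈ Subgroup.center H := by
      rw [Subgroup.mem_center_iff]
      intro g
      exact (h.trp.kerp a ha g).symm
    have h4 := (fZH H τ h.trp.tau a hc).1 b
    have n1 := qt_tau_ne h ha
    have n2 := qt_tau_ne h hb
    rw [map_mul] at h1
    apply mul_right_cancel₀ n1
    apply mul_right_cancel₀ n2
    have h5 : νs (q a * q b) * τ a * τ b = νs (q a * q b) * τ (a * b) * τ 1 := by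
      rw [mul_assoc, ← h4]
      ring
    rw [h5, h1]
    have h6 : νs (q a) * νs (q b) * τ a * τ b = (νs (q a) * τ a) * (νs (q b) * τ b) := by ring
    rw [h6, h2, h3]
  · intro ψ hψ hov
    obtain ⟨η₀, k1, k2, k3, k4, k5⟩ := ga1 ψ hψ hov
    obtain ⟨η, hη, hη2⟩ := qt_def h hKV k1 k2
    have hη1 : η 1 = η₀ 1 := by
      have := hη2 1
      rwa [map_one] at this
    refine ⟨η, hη, ?_, ?_, ?_⟩
    · intro a ha
      rw [hη2]
      exact (k3 a ha).1
    · intro z hz
      obtain ⟨w, hw, rfl⟩ := hZ z hz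
      have h1 := k5 w hw 1
      rw [mul_one, ← h.nus w hw] at h1
      rw [hη2, hη1]
      apply mul_right_cancel₀ (qt_tau_ne h hw)
      rw [h1]
      ring
    · rw [hη1]
      exact k4
  · intro η hη hz
    have h1 := ga2 (fun a => η (q a)) (qt_inf h hKV hη) (by
      intro a k
      simp only [map_mul, qt_ik h, mul_one]) (by
      intro z hz2
      have h2 := hz (q z) (by rw [h.zs]; exact ⟨z, hz2, rfl⟩)
      simp only [map_one]
      rw [h2, ← h.nus z hz2]
      ring)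
    exact h1
  · intro ψ hψ ψ' hψ' η hη η' hη' hQ hQ'
    have hη1 : η (q 1) = η 1 := by rw [map_one]
    refine ⟨⟨?_, ?_⟩, ?_, ?_, ?_⟩
    · intro he
      subst he
      have h1 := ga3 (fun a => η (q a)) (fun a => η' (q a))
        (by intro a k; simp only [map_mul, qt_ik h, mul_one])
        (by intro a k; simp only [map_mul, qt_ik h, mul_one]) (by
        intro a
        by_cases ha : a ∈ V.comap p
        · show τ a * η (q a) = τ a * η' (q a)
          rw [← hQ a ha, ← hQ' a ha]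
        · have e1 : η (q a) = 0 := (fS1 Q _ η hη).1 _ (fun h2 => ha ((qt_mem h hKV a).1 h2))
          have e2 : η' (q a) = 0 := (fS1 Q _ η' hη').1 _ (fun h2 => ha ((qt_mem h hKV a).1 h2))
          show τ a * η (q a) = τ a * η' (q a)
          rw [e1, e2])
      funext g
      obtain ⟨a, rfl⟩ := h.sur g
      exact congrFun h1 a
    · intro he
      subst he
      funext g
      by_cases hg : g ∈ V
      · have h1 : g ∈ p.range := by rw [h.trp.rng]; exact hVU hg
        obtain ⟨a, rfl⟩ := h1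
        rw [hQ a hg, hQ' a hg]
      · rw [(fS1 Γ V ψ hψ).1 g hg, (fS1 Γ V ψ' hψ').1 g hg]
    · have h1 : ∀ k : Γ, ψ k * (starRingEnd ℂ) (θ k) = η 1 * (θ k * (starRingEnd ℂ) (θ k)) := by
        intro k
        by_cases hk : k ∈ K
        · have h2 := hQ (i ⟨k, hk⟩) (by
            show p (i ⟨k, hk⟩) ∈ V
            rw [h.trp.pi]
            exact hKV hk)
          rw [h.trp.pi, h.trp.res, qt_ik h] at h2
          rw [h2]
          ring
        · rw [(fS1 Γ K θ h.trp.irr).1 k hk]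
          simp
      unfold Over
      rw [Finset.sum_congr rfl fun k _ => h1 k, ← Finset.mul_sum, fS2 Γ K θ θ h.trp.irr h.trp.irr,
        if_pos rfl]
      refine mul_ne_zero ?_ ?_
      · obtain ⟨_, _, ⟨d, hd0, hd⟩, _⟩ := fS1 Q _ η hη
        rw [hd]
        exact_mod_cast hd0.ne'
      · have : 0 < Nat.card K := Nat.card_pos
        exact_mod_cast this.ne'
    · intro z hz
      obtain ⟨w, hw, rfl⟩ := hZ z hz
      have h1 := hQ w (by
        show p w ∈ V
        rw [hw]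
        exact V.one_mem)
      have h2 := hQ 1 (Subgroup.one_mem _)
      rw [hw] at h1
      rw [map_one, hη1, h1, ← h.nus w hw] at h2
      apply mul_right_cancel₀ (qt_tau_ne h hw)
      linear_combination h2
    · have h2 := hQ 1 (Subgroup.one_mem _)
      rw [map_one, hη1, hτ1] at h2
      exact h2

end Pool.Agent.H33.T2
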